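import Pool.Agent.Strip051.LB.A0m3m_pm.Defs

/-! # LINE boxes A0m3m_pm: part 2 -/

namespace Pool.Agent.Strip051.LB.A0m3m_pm

open Pool.Agent.Strip051.Box Pool.Agent.Strip051.Box2

set_option maxRecDepth 100000

theorem c6 : chk f 60 (R2 (R1 b0)) = true := by decide +kernel

end Pool.Agent.Strip051.LB.A0m3m_pm
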